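import Mathlib

/-! Multiples of the frequencies: a Bohr set of small radius contains a Bohr set of large radius. -/

set_option autoImplicit false

namespace Pool.Agent.H33.QB

/-- distance to the nearest integer -/
noncomputable def nd (y : ℝ) : ℝ := |y - ((round y : ℤ) : ℝ)|

theorem nd_lift (y : ℝ) (k : ℤ) (h : |y - k| < 1 / 2) : nd y = |y - k| := by
  have h1 : round y = k := by
    rw [round_eq_iff]
    rw [abs_lt] at h
    constructor <;> linarith [h.1, h.2]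
  rw [nd, h1]

theorem nd_add_int (y : ℝ) (k : ℤ) : nd (y + k) = nd y := by
  unfold nd
  rw [round_add_intCast]
  push_cast
  congr 1
  ring

theorem nd_step (m : ℕ) (ε δ y : ℝ) (hm : 1 ≤ m) (hδ : nd y ≤ δ) (h1 : m * δ < 1 / 2)
    (h2 : nd (m * y) ≤ ε) : nd y ≤ ε / m := by
  have hm0 : (0 : ℝ) < m := by exact_mod_cast hm
  have h3 : |(m : ℝ) * y - ((m * round y : ℤ) : ℝ)| = m * nd y := by
    push_cast
    rw [← mul_sub, abs_mul, abs_of_pos hm0, nd]
  have h4 : |(m : ℝ) * y - ((m * round y : ℤ) : ℝ)| < 1 / 2 := by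
    rw [h3]
    exact lt_of_le_of_lt (mul_le_mul_of_nonneg_left hδ hm0.le) h1
  have h5 := nd_lift _ _ h4
  rw [h5, h3] at h2
  rw [le_div_iff₀ hm0]
  linarith

theorem nd_iter (m : ℕ) (ε y : ℝ) (hm : 1 ≤ m) (hε : (m : ℝ) * ε < 1 / 2) (s : ℕ)
    (h : ∀ i ≤ s, nd ((m : ℝ) ^ i * y) ≤ ε) : nd y ≤ ε / (m : ℝ) ^ s := by
  have hm0 : (0 : ℝ) < m := by exact_mod_cast hm
  induction s generalizing y with
  | zero => simpa using h 0 le_rfl
  | succ s ih =>
    have h1 := ih (y := (m : ℝ) * y) (fun i hi => by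
      have := h (i + 1) (by omega)
      rwa [pow_succ, mul_assoc] at this)
    have h0 := h 0 (Nat.zero_le _)
    rw [pow_zero, one_mul] at h0
    have h2 := nd_step m _ ε y hm h0 hε h1
    rwa [div_div, ← pow_succ] at h2

theorem nd_mul {N : ℕ} [NeZero N] (a : ℕ) (z : ZMod N) :
    nd ((((a : ZMod N) * z).val : ℝ) / (N : ℝ)) = nd ((a : ℝ) * ((z.val : ℝ) / (N : ℝ))) := by
  have hN : (N : ℝ) ≠ 0 := by exact_mod_cast NeZero.ne N
  have h1 : ((((a : ZMod N) * z).val : ℤ) - (a : ℤ) * (z.val : ℤ)) % (N : ℤ) = 0 := by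
    apply Int.emod_eq_zero_of_dvd
    rw [← ZMod.intCast_zmod_eq_zero_iff_dvd]
    push_cast
    rw [ZMod.natCast_zmod_val, ZMod.natCast_zmod_val]
    ring
  obtain ⟨k, hk⟩ := Int.dvd_of_emod_eq_zero h1
  have h2 : (((a : ZMod N) * z).val : ℝ) = (a : ℝ) * (z.val : ℝ) + N * k := by
    have : ((((a : ZMod N) * z).val : ℤ) : ℝ) - (a : ℝ) * (z.val : ℝ) = (N : ℝ) * k := by
      exact_mod_cast congrArg (fun t : ℤ => (t : ℝ)) hk
    push_cast at this
    linarith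
  rw [h2, add_div, mul_div_cancel_left₀ _ hN, nd_add_int, mul_div_assoc]

/-- The Bohr set of radius `ρ` with frequencies `Γ` contains the Bohr set of radius `ε` with the
frequencies `m ^ i * γ`, `i ≤ s`, if `m ε < 1 / 2` and `ε / m ^ s ≤ ρ`. -/
theorem multi {N : ℕ} [NeZero N] (Γ : Finset (ZMod N)) (m s : ℕ) (ε ρ : ℝ) (hm : 1 ≤ m)
    (hε : (m : ℝ) * ε < 1 / 2) (hρ : ε / (m : ℝ) ^ s ≤ ρ) :
    ∃ Γ' : Finset (ZMod N), Γ'.card ≤ (s + 1) * Γ.card ∧
      ∀ x : ZMod N, (∀ γ ∈ Γ', nd (((γ * x).val : ℝ) / (N : ℝ)) ≤ ε) →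
        ∀ γ ∈ Γ, nd (((γ * x).val : ℝ) / (N : ℝ)) ≤ ρ := by
  classical
  refine ⟨(Finset.range (s + 1) ×ˢ Γ).image (fun q => ((m ^ q.1 : ℕ) : ZMod N) * q.2), ?_, ?_⟩
  · refine Finset.card_image_le.trans ?_
    rw [Finset.card_product, Finset.card_range]
  · intro x hx γ hγ
    refine (nd_iter m ε _ hm hε s ?_).trans hρ
    intro i hi
    have h1 := hx (((m ^ i : ℕ) : ZMod N) * γ) (Finset.mem_image.2 ⟨(i, γ),
      Finset.mem_product.2 ⟨Finset.mem_range.2 (by omega), hγ⟩, rfl⟩)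
    rw [mul_assoc, nd_mul] at h1
    push_cast at h1
    exact h1

/-- Choice of `m` and `s`. -/
theorem params (ε ρ : ℝ) (hε : 0 < ε) (hε8 : ε ≤ 1 / 8) (hρ : 0 < ρ) (hρ1 : ρ ≤ 1) :
    ∃ m s : ℕ, 1 ≤ m ∧ (m : ℝ) * ε < 1 / 2 ∧ ε / (m : ℝ) ^ s ≤ ρ ∧
      ((s : ℝ) + 1) ≤ 2 + 4 * (Real.log (1 / ρ) / Real.log (1 / ε)) := by
  have hfl : (2 : ℕ) ≤ ⌊1 / (4 * ε)⌋₊ := by
    apply Nat.le_floor
    rw [le_div_iff₀ (by positivity)]
    push_cast
    linarith
  set m := ⌊1 / (4 * ε)⌋₊ with hm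
  have hm1 : (m : ℝ) ≤ 1 / (4 * ε) := Nat.floor_le (by positivity)
  have hm2 : 1 / (4 * ε) < m + 1 := Nat.lt_floor_add_one _
  have hm2' : (2 : ℝ) ≤ m := by exact_mod_cast hfl
  have hmpos : (0 : ℝ) < m := by linarith
  have hlog1 : 0 < Real.log (1 / ε) := by
    apply Real.log_pos
    rw [lt_div_iff₀ hε]; linarith
  have hinv : 1 / ε ≤ (m : ℝ) ^ 4 := by
    have h1 : 1 / ε = 4 * (1 / (4 * ε)) := by field_simp
    have h2 : 1 / ε < 4 * (m + 1) := by rw [h1]; linarith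
    have h3 : 4 * ((m : ℝ) + 1) ≤ m ^ 4 := by
      have h4 : (4 : ℝ) ≤ m ^ 2 := by nlinarith
      rcases le_or_gt (3 : ℝ) m with h | h
      · nlinarith [mul_self_nonneg ((m : ℝ) ^ 2 - 4), mul_self_nonneg ((m : ℝ) - 2)]
      · have : m = 2 := by
          have : (m : ℝ) < (3 : ℕ) := by exact_mod_cast h
          have := Nat.cast_lt.1 this
          omega
        rw [this]; norm_num
    linarith
  have hlogm : Real.log (1 / ε) ≤ 4 * Real.log m := by
    have := Real.log_le_log (by positivity) hinv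
    rwa [Real.log_pow] at this
  have hlogm0 : 0 < Real.log m := by
    apply Real.log_pos; linarith
  have hlogρ : 0 ≤ Real.log (1 / ρ) := by
    apply Real.log_nonneg
    rw [le_div_iff₀ hρ]; linarith
  refine ⟨m, ⌈Real.log (1 / ρ) / Real.log m⌉₊, by omega, ?_, ?_, ?_⟩
  · calc (m : ℝ) * ε ≤ 1 / (4 * ε) * ε := by gcongr
      _ = 1 / 4 := by field_simp
      _ < 1 / 2 := by norm_num
  · have h1 : Real.log (1 / ρ) ≤ ⌈Real.log (1 / ρ) / Real.log m⌉₊ * Real.log m := by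
      rw [← div_le_iff₀ hlogm0]
      exact Nat.le_ceil _
    have h2 : 1 / ρ ≤ (m : ℝ) ^ ⌈Real.log (1 / ρ) / Real.log m⌉₊ := by
      rw [← Real.log_pow] at h1
      exact (Real.log_le_log_iff (by positivity) (by positivity)).1 h1
    rw [div_le_iff₀ (by positivity)]
    have h3 : 1 ≤ ρ * (m : ℝ) ^ ⌈Real.log (1 / ρ) / Real.log m⌉₊ := by
      rw [div_le_iff₀ hρ] at h2
      linarith
    linarith
  · have h1 : (⌈Real.log (1 / ρ) / Real.log m⌉₊ : ℝ) < Real.log (1 / ρ) / Real.log m + 1 :=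
      Nat.ceil_lt_add_one (by positivity)
    have h2 : Real.log (1 / ρ) / Real.log m ≤ 4 * (Real.log (1 / ρ) / Real.log (1 / ε)) := by
      rw [div_le_iff₀ hlogm0]
      have h3 : Real.log (1 / ρ) = Real.log (1 / ρ) / Real.log (1 / ε) * Real.log (1 / ε) := by
        field_simp
      have h4 : 0 ≤ Real.log (1 / ρ) / Real.log (1 / ε) := by positivity
      calc Real.log (1 / ρ) = Real.log (1 / ρ) / Real.log (1 / ε) * Real.log (1 / ε) := h3
        _ ≤ Real.log (1 / ρ) / Real.log (1 / ε) * (4 * Real.log m) := by gcongr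
        _ = _ := by ring
    linarith

end Pool.Agent.H33.QB
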